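import Pool.Agent.helper83.GR.Spec

/-! Module IDM: the idempotent of a set of characters. -/

set_option autoImplicit false

namespace Pool.Agent.GR

open Pool.Agent.helper58.DC Pool.Agent.DI

theorem IDM_es {G : Type} [Group G] [Finite G] (H : Subgroup G) (S : Set (G → ℂ)) (hf : S.Finite)
    (g : G) : eS H S g = (∑ ψ ∈ hf.toFinset, ψ 1 * ψ g⁻¹) / Nat.card H := by
  unfold eS
  rw [finsum_mem_eq_finite_toFinset_sum _ hf]

theorem IDM (hSCH : SCH_stmt) (hEXP : EXP_stmt) (hCVF : CVF_stmt) (hCCI : CCI_stmt)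
    (hB2 : B2_stmt) : IDM_stmt := by
  classical
  intro G _ _ H S hS
  haveI : Fintype G := Fintype.ofFinite G
  obtain ⟨hfinI, hI⟩ := hB2 G H
  have hf : S.Finite := hfinI.subset hS
  have hH0 : (Nat.card H : ℂ) ≠ 0 := by
    exact_mod_cast Nat.card_pos.ne'
  -- class function
  have hCF : CF H (eS H S) := by
    constructor
    · intro h hh x
      rw [IDM_es H S hf, IDM_es H S hf]
      congr 1
      apply Finset.sum_congr rfl
      intro ψ hψ
      rw [Set.Finite.mem_toFinset] at hψ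
      have h1 := (hI ψ (hS hψ)).2.1 x⁻¹ h hh
      have h2 : (h * x * h⁻¹)⁻¹ = h * x⁻¹ * h⁻¹ := by group
      rw [h2, h1]
    · intro x hx
      rw [IDM_es H S hf]
      have : ∑ ψ ∈ hf.toFinset, ψ 1 * ψ x⁻¹ = 0 := by
        apply Finset.sum_eq_zero
        intro ψ hψ
        rw [Set.Finite.mem_toFinset] at hψ
        have h1 := (hI ψ (hS hψ)).2.2.2.1 x⁻¹ (by simpa using hx)
        rw [h1, mul_zero]
      rw [this, zero_div]
  -- central characters
  have hcc : ∀ ψ ∈ IrrOn H, cc ψ (eS H S) = if ψ ∈ S then 1 else 0 := by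
    intro ψ hψ
    obtain ⟨⟨n, hn, hn1, -⟩, -, -, -, horth⟩ := hI ψ hψ
    have hψ1 : ψ 1 ≠ 0 := by
      rw [hn1]
      exact_mod_cast hn.ne'
    unfold cc
    rw [finsum_eq_sum_of_fintype]
    have h1 : ∀ x, eS H S x * ψ x = ∑ φ ∈ hf.toFinset, φ 1 / Nat.card H * (ψ x * φ x⁻¹) := by
      intro x
      rw [IDM_es H S hf, Finset.sum_div, Finset.sum_mul]
      apply Finset.sum_congr rfl
      intro φ _
      ring
    simp only [h1]
    rw [Finset.sum_comm]
    have h2 : ∀ φ ∈ hf.toFinset, ∑ x : G, φ 1 / Nat.card H * (ψ x * φ x⁻¹) =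
        if ψ = φ then φ 1 else 0 := by
      intro φ hφ
      rw [Set.Finite.mem_toFinset] at hφ
      have h3 := horth φ (hS hφ)
      rw [finsum_eq_sum_of_fintype] at h3
      rw [← Finset.mul_sum, h3]
      split_ifs with h
      · field_simp
      · simp
    rw [Finset.sum_congr rfl h2, Finset.sum_ite_eq]
    simp only [Set.Finite.mem_toFinset]
    split_ifs with h
    · exact div_self hψ1
    · simp
  refine ⟨hCF, hcc, ?_, ?_⟩
  · obtain ⟨-, -, -, -, -, -, -, hCV, -, -, -, -⟩ := hCVF G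
    obtain ⟨hc1, -, -⟩ := hCV H (eS H S) (eS H S) hCF hCF
    have hc2 := (hCV H (cv (eS H S) (eS H S)) (eS H S) hc1 hCF).2.2
    have h0 := hEXP G H _ hc2 (fun ψ hψ => by
      obtain ⟨hlin, hmul, -⟩ := hCCI G H ψ hψ
      rw [(hlin 1 (cv (eS H S) (eS H S)) (eS H S)).2.1, hmul _ _ hCF hCF, hcc ψ hψ]
      split_ifs <;> simp)
    exact sub_eq_zero.mp h0
  · intro a ha b hb
    have h1 : ∑ᶠ z ∈ (H : Set G), eS H S (z⁻¹ * a⁻¹ * z * b) =
        ∑ᶠ t ∈ (H : Set G), eS H S (t * a⁻¹ * t⁻¹ * b) := by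
      apply finsum_mem_eq_of_bijOn (fun z => z⁻¹)
      · refine ⟨fun z hz => ?_, fun z _ w _ h => inv_injective h, fun z hz => ?_⟩
        · exact H.inv_mem hz
        · exact ⟨z⁻¹, H.inv_mem hz, inv_inv z⟩
      · intro z _
        simp
    rw [h1]
    have hHf : (H : Set G).Finite := Set.toFinite _
    rw [finsum_mem_eq_finite_toFinset_sum _ hHf]
    simp only [IDM_es H S hf, div_eq_mul_inv]
    rw [← Finset.sum_mul, Finset.sum_comm]
    unfold Sf
    rw [finsum_mem_eq_finite_toFinset_sum _ hf, Finset.sum_mul]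
    apply Finset.sum_congr rfl
    intro ψ hψ
    rw [Set.Finite.mem_toFinset] at hψ
    have h2 := hSCH G H ψ (hS hψ) b⁻¹ (H.inv_mem hb) a
    rw [finsum_mem_eq_finite_toFinset_sum _ hHf] at h2
    have h3 : ∀ t : G, (t * a⁻¹ * t⁻¹ * b)⁻¹ = b⁻¹ * (t * a * t⁻¹) := by
      intro t
      group
    simp only [h3]
    rw [← Finset.mul_sum, h2]
    field_simp

end Pool.Agent.GR
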