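import Pool.Agent.helper88.GR.Spec

set_option autoImplicit false

open Complex Metric Set Filter Topology MeasureTheory
open MPS (om)
open PPS (pre TT fd)
open XPS (Df er dens tau)

noncomputable section

namespace GR

theorem DIS_iter (n : ℕ) (c : ℂ) (p q : ℕ) (G : ℕ → ℂ → ℂ) (hG : Tow n c p q G) (m : ℕ) (hm : m < p)
    (w : ℂ) (hw : w ∈ ball (0 : ℂ) (R n c q)) :
    ∀ j ≤ m, (fun z : ℂ => z ^ n + c)^[j] (G m w) = G (m - j) w := by
  intro j
  induction j with
  | zero => intro _; simp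
  | succ j ih =>
    intro hj
    rw [Function.iterate_succ_apply', ih (by omega)]
    have h1 := (hG.rel (m - (j + 1)) (by omega) w hw).1
    rw [show m - (j + 1) + 1 = m - j by omega] at h1
    exact h1

theorem DIS_a (hT : TOP_stmt) (hK : KNV_stmt) (C : ℝ) (n : ℕ) (c : ℂ) (p q : ℕ) (G : ℕ → ℂ → ℂ)
    (hC : KQ C) (hR : Ret n c p q) (hG : Tow n c p q G) (hX : 16 * C ≤ X n c p q) :
    ∀ k, 1 ≤ k → k < p → ∀ w ∈ ball (0 : ℂ) (R n c q / (8 * C)),
      G k w ∉ ball (0 : ℂ) (R n c q / (8 * C)) := by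
  intro k hk hkp w hw hGw
  have hC1 : 1 ≤ C := hC.1
  have hq0 : Z n c q ≠ 0 := hR.ne0 q hR.q1 hR.qp.le
  have hp0 : Z n c p ≠ 0 := hR.ne0 p (by have := hR.q1; have := hR.qp; omega) le_rfl
  have hRpos : 0 < R n c q := norm_pos_iff.2 hq0
  have hzp : 0 < ‖Z n c p‖ := norm_pos_iff.2 hp0
  have hzp2 : ‖Z n c p‖ ≤ R n c q / (16 * C) := by
    unfold X at hX
    rw [le_div_iff₀ hzp] at hX
    rw [le_div_iff₀ (by positivity)]
    unfold R
    linarith
  have hZ : Z n c p ∈ ball (0 : ℂ) (R n c q / (8 * C)) := by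
    rw [mem_ball_zero_iff]
    refine lt_of_le_of_lt hzp2 ?_
    rw [div_lt_div_iff_of_pos_left hRpos (by positivity) (by positivity)]
    linarith
  obtain ⟨t1, t2, t3, t4, t5⟩ := hT n c p q G hR hG
  have hnz : ∀ x ∈ ball (0 : ℂ) (R n c q), G k x ≠ 0 := by
    intro x hx
    have h1 := (hG.rel (k - 1) (by omega) x hx).2
    rw [show k - 1 + 1 = k by omega] at h1
    exact h1
  have h2 := (hK C (R n c q) (G k) hC hRpos (hG.diff k hkp) (t2 k hkp) hnz).2 w hw (Z n c p) hZ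
  rw [hG.val k hkp] at h2
  have h3 := hR.mn (p - k) (by omega) (by omega)
  rw [mem_ball_zero_iff] at hGw
  have h4 : R n c q / (8 * C) ≤ R n c q / 8 := by
    apply div_le_div_of_nonneg_left hRpos.le (by norm_num)
    linarith
  have h5 : R n c q = ‖Z n c q‖ := rfl
  rw [← h5] at h3
  linarith

theorem DIS (hT : TOP_stmt) (hK : KNV_stmt) : DIS_stmt := by
  intro C n c p q G hC hR hG hX
  have hC1 : 1 ≤ C := hC.1
  have hRpos : 0 < R n c q := norm_pos_iff.2 (hR.ne0 q hR.q1 hR.qp.le)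
  have hsub : ball (0 : ℂ) (R n c q / (8 * C)) ⊆ ball (0 : ℂ) (R n c q) := by
    apply ball_subset_ball
    apply div_le_self hRpos.le
    linarith
  obtain ⟨t1, t2, t3, t4, t5⟩ := hT n c p q G hR hG
  have key : ∀ m m', m < m' → m' < p → ∀ w ∈ ball (0 : ℂ) (R n c q / (8 * C)),
      ∀ w' ∈ ball (0 : ℂ) (R n c q / (8 * C)), G m w = G m' w' → False := by
    intro m m' hmm hm' w hw w' hw' he
    have h1 := t1 m (by omega) w (hsub hw)
    have h2 := DIS_iter n c p q G hG m' hm' w' (hsub hw') m hmm.le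
    rw [he, h2] at h1
    apply DIS_a hT hK C n c p q G hC hR hG hX (m' - m) (by omega) (by omega) w' hw'
    rw [h1]
    exact hw
  intro m hm m' hm' hne
  rw [Set.disjoint_left]
  rintro x ⟨w, hw, rfl⟩ ⟨w', hw', he⟩
  rcases lt_or_gt_of_ne hne with h | h
  · exact key m m' h hm' w hw w' hw' he.symm
  · exact key m' m h hm w' hw' w hw he

end GR
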